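import Pool.Agent.V11196.SW.Defs

namespace Pool.Agent.V11196.SW

open scoped ContDiff Matrix
open Matrix MeasureTheory

lemma pauli_conj (j : Fin 3) : (pauli j)ᴴ = pauli j := by
  fin_cases j <;> ext a b <;> fin_cases a <;> fin_cases b <;> simp [pauli]

lemma pauli_trace (j : Fin 3) : (pauli j).trace = 0 := by
  fin_cases j <;> simp [pauli, Matrix.trace, Fin.sum_univ_two]

lemma pauli_sq (j : Fin 3) : pauli j * pauli j = 1 := by
  fin_cases j <;> ext a b <;> fin_cases a <;> fin_cases b <;> simp [pauli]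

/-- The matrices `α_j`. -/
noncomputable def alpha (n0 : ℝ) (p : Fin 3 → ℝ) (j : Fin 3) : Matrix (Fin 2) (Fin 2) ℂ :=
  ![((Complex.I * (n0 / 3 : ℝ)) • pauli 0 + (Complex.I * (p 1 / 2 : ℝ)) • pauli 2
      - (Complex.I * (p 2 / 2 : ℝ)) • pauli 1),
    ((Complex.I * (n0 / 3 : ℝ)) • pauli 1 + (Complex.I * (p 2 / 2 : ℝ)) • pauli 0
      - (Complex.I * (p 0 / 2 : ℝ)) • pauli 2),
    ((Complex.I * (n0 / 3 : ℝ)) • pauli 2 + (Complex.I * (p 0 / 2 : ℝ)) • pauli 1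
      - (Complex.I * (p 1 / 2 : ℝ)) • pauli 0)] j

lemma alpha_skew (n0 : ℝ) (p : Fin 3 → ℝ) (j : Fin 3) : (alpha n0 p j)ᴴ = - alpha n0 p j := by
  fin_cases j <;>
    simp [alpha, Matrix.conjTranspose_add, Matrix.conjTranspose_smul,
      pauli_conj, sub_eq_add_neg] <;> abel

lemma alpha_trace (n0 : ℝ) (p : Fin 3 → ℝ) (j : Fin 3) : (alpha n0 p j).trace = 0 := by
  fin_cases j <;>
    simp [alpha, Matrix.trace_add, Matrix.trace_sub, Matrix.trace_smul, pauli_trace]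

/-- The coefficients of a `2 × 2` matrix. -/
noncomputable def n0 (N : Matrix (Fin 2) (Fin 2) ℂ) : ℝ := N.trace.im / 2
noncomputable def pp (N : Matrix (Fin 2) (Fin 2) ℂ) (l : Fin 3) : ℝ := (pauli l * N).trace.re / 2
noncomputable def qq (N : Matrix (Fin 2) (Fin 2) ℂ) (l : Fin 3) : ℝ := (pauli l * N).trace.im / 2

lemma sum_pauli_alpha (N : Matrix (Fin 2) (Fin 2) ℂ) (hN : N.trace.re = 0) :
    ∑ j, pauli j * alpha (n0 N) (pp N) j = N - ∑ j, (Complex.I * (qq N j : ℂ)) • pauli j := by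
  have h1 : (N 0 0).re + (N 1 1).re = 0 := by
    simpa [Matrix.trace, Fin.sum_univ_two] using hN
  ext a b
  fin_cases a <;> fin_cases b <;>
    apply Complex.ext <;>
    simp [alpha, n0, pp, qq, pauli, Fin.sum_univ_three, Matrix.mul_apply, Fin.sum_univ_two,
      Matrix.trace, Matrix.vecMul, dotProduct] <;> linarith

section general

variable {n : ℕ}

/-- The coefficients of the connection on `L`. -/
noncomputable def aa (ρ : ℝ) (N : Matrix (Fin 2) (Fin 2) ℂ) (j : Fin 3) : ℝ := - qq N j * ρ⁻¹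

/-- The component of `T` orthogonal to `R`. -/
noncomputable def Tp (ρ : ℝ) (R T : Matrix (Fin 2) (Fin n) ℂ) : Matrix (Fin 2) (Fin n) ℂ :=
  T - ((ρ⁻¹ : ℝ) : ℂ) • ((T * Rᴴ) * R)

/-- The coefficients of the connection on `E`. -/
noncomputable def bb (ρ : ℝ) (R T : Matrix (Fin 2) (Fin n) ℂ) (j : Fin 3) :
    Matrix (Fin n) (Fin n) ℂ :=
  ((ρ⁻¹ / 3 : ℝ) : ℂ) • (Rᴴ * pauli j * Tp ρ R T - (Tp ρ R T)ᴴ * pauli j * R) +
    ((ρ⁻¹ * ρ⁻¹ : ℝ) : ℂ) • (Rᴴ * alpha (n0 (T * Rᴴ)) (pp (T * Rᴴ)) j * R)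

variable {ρ : ℝ} {R T : Matrix (Fin 2) (Fin n) ℂ}

lemma Tp_mul (hρ : ρ ≠ 0) (hR : R * Rᴴ = (ρ : ℂ) • 1) : Tp ρ R T * Rᴴ = 0 := by
  have h : (ρ : ℂ) ≠ 0 := by exact_mod_cast hρ
  rw [Tp, Matrix.sub_mul, Matrix.smul_mul, Matrix.mul_assoc (T * Rᴴ), hR, Matrix.mul_smul,
    smul_smul, Matrix.mul_one, Complex.ofReal_inv, inv_mul_cancel₀ h, one_smul, sub_self]

lemma mul_Tp (hρ : ρ ≠ 0) (hR : R * Rᴴ = (ρ : ℂ) • 1) : R * (Tp ρ R T)ᴴ = 0 := by
  have := congrArg Matrix.conjTranspose (Tp_mul (T := T) hρ hR)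
  simpa [Matrix.conjTranspose_mul] using this

lemma bb_skew (ρ : ℝ) (R T : Matrix (Fin 2) (Fin n) ℂ) (j : Fin 3) :
    (bb ρ R T j)ᴴ = - bb ρ R T j := by
  unfold bb
  rw [Matrix.conjTranspose_add, Matrix.conjTranspose_smul, Matrix.conjTranspose_smul,
    Matrix.conjTranspose_sub]
  simp only [Matrix.conjTranspose_mul, Matrix.conjTranspose_conjTranspose, pauli_conj, alpha_skew,
    Complex.star_def, Complex.conj_ofReal, Matrix.mul_neg, Matrix.neg_mul, Matrix.mul_assoc]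
  rw [neg_add, ← smul_neg, ← smul_neg, neg_sub]

lemma bb_trace (hρ : ρ ≠ 0) (hR : R * Rᴴ = (ρ : ℂ) • 1) (j : Fin 3) :
    (bb ρ R T j).trace = 0 := by
  unfold bb
  rw [Matrix.trace_add, Matrix.trace_smul, Matrix.trace_smul, Matrix.trace_sub]
  have e1 : (Rᴴ * pauli j * Tp ρ R T).trace = 0 := by
    rw [Matrix.mul_assoc, Matrix.trace_mul_comm, Matrix.mul_assoc, Tp_mul hρ hR, Matrix.mul_zero,
      Matrix.trace_zero]
  have e2 : ((Tp ρ R T)ᴴ * pauli j * R).trace = 0 := by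
    rw [Matrix.trace_mul_comm, ← Matrix.mul_assoc, mul_Tp hρ hR, Matrix.zero_mul,
      Matrix.trace_zero]
  have e3 : (Rᴴ * alpha (n0 (T * Rᴴ)) (pp (T * Rᴴ)) j * R).trace = 0 := by
    rw [Matrix.trace_mul_comm, ← Matrix.mul_assoc, hR, Matrix.smul_mul, Matrix.one_mul,
      Matrix.trace_smul, alpha_trace, smul_zero]
  rw [e1, e2, e3]
  simp

lemma mul_bb (hρ : ρ ≠ 0) (hR : R * Rᴴ = (ρ : ℂ) • 1) (j : Fin 3) :
    R * bb ρ R T j = (1 / 3 : ℂ) • (pauli j * Tp ρ R T) +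
      ((ρ⁻¹ : ℝ) : ℂ) • (alpha (n0 (T * Rᴴ)) (pp (T * Rᴴ)) j * R) := by
  have h : (ρ : ℂ) ≠ 0 := by exact_mod_cast hρ
  unfold bb
  rw [Matrix.mul_add, Matrix.mul_smul, Matrix.mul_smul, Matrix.mul_sub]
  have e1 : R * (Rᴴ * pauli j * Tp ρ R T) = (ρ : ℂ) • (pauli j * Tp ρ R T) := by
    rw [Matrix.mul_assoc, ← Matrix.mul_assoc R, hR, Matrix.smul_mul, Matrix.one_mul]
  have e2 : R * ((Tp ρ R T)ᴴ * pauli j * R) = 0 := by
    rw [Matrix.mul_assoc, ← Matrix.mul_assoc R, mul_Tp hρ hR, Matrix.zero_mul]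
  have e3 : R * (Rᴴ * alpha (n0 (T * Rᴴ)) (pp (T * Rᴴ)) j * R)
      = (ρ : ℂ) • (alpha (n0 (T * Rᴴ)) (pp (T * Rᴴ)) j * R) := by
    rw [Matrix.mul_assoc, ← Matrix.mul_assoc R, hR, Matrix.smul_mul, Matrix.one_mul]
  rw [e1, e2, e3, sub_zero, smul_smul, smul_smul]
  congr 2
  · push_cast
    field_simp
  · push_cast
    field_simp

/-- The linear equation for the connections is solved by `aa`, `bb`. -/
lemma solved (hρ : ρ ≠ 0) (hR : R * Rᴴ = (ρ : ℂ) • 1) (hT : (T * Rᴴ).trace.re = 0) :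
    ∑ j, pauli j * ((Complex.I * (aa ρ (T * Rᴴ) j : ℂ)) • R - R * bb ρ R T j) = - T := by
  have h : (ρ : ℂ) ≠ 0 := by exact_mod_cast hρ
  set N := T * Rᴴ with hN
  have e1 : ∀ j, pauli j * ((Complex.I * (aa ρ N j : ℂ)) • R - R * bb ρ R T j)
      = - (((ρ⁻¹ : ℝ) : ℂ) • ((Complex.I * (qq N j : ℂ)) • pauli j * R))
        - ((1 / 3 : ℂ) • Tp ρ R T + ((ρ⁻¹ : ℝ) : ℂ) • (pauli j * alpha (n0 N) (pp N) j * R)) := by
    intro j
    rw [mul_bb hρ hR, Matrix.mul_sub, Matrix.mul_add, Matrix.mul_smul, Matrix.mul_smul,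
      Matrix.mul_smul, ← Matrix.mul_assoc (pauli j) (pauli j), pauli_sq, Matrix.one_mul,
      ← Matrix.mul_assoc, ← hN, Matrix.smul_mul, smul_smul, aa]
    congr 1
    rw [← neg_smul]
    congr 1
    push_cast
    ring
  rw [Finset.sum_congr rfl fun j _ => e1 j, Finset.sum_sub_distrib, Finset.sum_add_distrib,
    Finset.sum_neg_distrib, ← Finset.smul_sum, ← Finset.smul_sum, ← Finset.smul_sum,
    ← Matrix.sum_mul, ← Matrix.sum_mul]
  have e2 := sum_pauli_alpha N hT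
  rw [e2]
  have e3 : (1 / 3 : ℂ) • ∑ _j : Fin 3, Tp ρ R T = Tp ρ R T := by
    rw [Finset.sum_const, Finset.card_univ, Fintype.card_fin, ← Nat.cast_smul_eq_nsmul ℂ, smul_smul]
    norm_num
  rw [e3, Matrix.sub_mul, smul_sub, Tp, ← hN]
  abel

end general

end Pool.Agent.V11196.SW
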