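import Mathlib

/-!
# The blown-up Seiberg-Witten equations with `n` spinors at `α = 0` on the flat three-torus

All objects on the torus `T³ = ℝ³/ℤ³` are given by `ℤ³`-periodic functions on `ℝ³`.  The torus carries
the flat metric and the spin structure with trivial spinor bundle `S = T³ × ℂ²`, whose Levi-Civita
connection is the trivial one and on which the coordinate field `e_j` acts by Clifford multiplication
by `i σ_j`.  The line bundle `L` and the `SU(n)`-bundle `E` are the trivial ones.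
-/

namespace Pool.Agent.V11196.SW

open scoped ContDiff Matrix
open Matrix MeasureTheory

/-- The universal cover `ℝ³` of the flat torus `T³ = ℝ³/ℤ³`. -/
abbrev V := Fin 3 → ℝ

/-- `f` is invariant under the lattice `ℤ³`, that is, `f` is (the lift of) a function on `T³`. -/
def Periodic3 {α : Type*} (f : V → α) : Prop :=
  ∀ (k : Fin 3 → ℤ) (x : V), f (x + fun j => (k j : ℝ)) = f x

/-- The three Pauli matrices. -/
def pauli (j : Fin 3) : Matrix (Fin 2) (Fin 2) ℂ :=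
  ![!![0, 1; 1, 0], !![0, -Complex.I; Complex.I, 0], !![1, 0; 0, -1]] j

/-- Clifford multiplication by the `j`-th coordinate vector field on spinors. -/
def clifford (j : Fin 3) : Matrix (Fin 2) (Fin 2) ℂ := Complex.I • pauli j

/-- The entrywise partial derivative in the `j`-th direction. -/
noncomputable def pd {m n : ℕ} (j : Fin 3) (Ψ : V → Matrix (Fin m) (Fin n) ℂ) (x : V) :
    Matrix (Fin m) (Fin n) ℂ :=
  Matrix.of fun a b => fderiv ℝ (fun y => Ψ y a b) x (Pi.single j 1)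

/-- The pointwise squared norm of `Ψ`. -/
noncomputable def normSq {n : ℕ} (R : Matrix (Fin 2) (Fin n) ℂ) : ℝ :=
  ∑ a, ∑ b, Complex.normSq (R a b)

/-- The twisted Dirac operator `D_{A ⊗ B}` applied to a section `Ψ` of `Hom(E, S ⊗ L)`, where `L` has
the connection `d + i ∑ A_j dx_j` and `E` the connection `d + ∑ B_j dx_j`. -/
noncomputable def dirac {n : ℕ} (B : Fin 3 → V → Matrix (Fin n) (Fin n) ℂ) (A : Fin 3 → V → ℝ)
    (Ψ : V → Matrix (Fin 2) (Fin n) ℂ) (x : V) : Matrix (Fin 2) (Fin n) ℂ :=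
  ∑ j, clifford j * (pd j Ψ x + (Complex.I * (A j x : ℂ)) • Ψ x - Ψ x * B j x)

/-- `B` is a smooth `SU(n)`-connection `d + ∑ B_j dx_j` on the trivial bundle `E = T³ × ℂⁿ`. -/
structure IsSUConnection {n : ℕ} (B : Fin 3 → V → Matrix (Fin n) (Fin n) ℂ) : Prop where
  smooth : ∀ j a b, ContDiff ℝ ∞ (fun x => B j x a b)
  periodic : ∀ j, Periodic3 (B j)
  skew : ∀ j x, (B j x)ᴴ = - B j x
  traceless : ∀ j x, (B j x).trace = 0

/-- `(A, Ψ, 0)` is a solution over `M \ Z` (with `M = T³`) of the blown-up Seiberg-Witten equations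
with `n` spinors and the `SU(n)`-connection `B`:  `Z` is a closed nowhere dense subset of `M`, `A` is a
connection on the trivial `U(1)`-bundle over `M \ Z`, `Ψ` is a smooth section of `Hom(E, S ⊗ L)` over
`M \ Z`, `|Ψ|` extends to a continuous function on `M` with zero set exactly `Z`, the `L²`-norm of `Ψ`
is one, `D_{A ⊗ B} Ψ = 0` and `μ(Ψ) = Ψ Ψ* - |Ψ|²/2 = 0` on `M \ Z`. -/
structure IsSolution {n : ℕ} (B : Fin 3 → V → Matrix (Fin n) (Fin n) ℂ) (Z : Set V)
    (A : Fin 3 → V → ℝ) (Ψ : V → Matrix (Fin 2) (Fin n) ℂ) : Prop where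
  closed : IsClosed Z
  nowhereDense : interior Z = ∅
  periodic_Z : Periodic3 (fun x => x ∈ Z)
  smooth_A : ∀ j, ContDiffOn ℝ ∞ (A j) Zᶜ
  periodic_A : ∀ j, Periodic3 (A j)
  smooth_Ψ : ∀ a b, ContDiffOn ℝ ∞ (fun x => Ψ x a b) Zᶜ
  periodic_Ψ : Periodic3 Ψ
  norm_extends : ∃ N : V → ℝ, Continuous N ∧ Periodic3 N ∧
    (∀ x ∉ Z, N x = Real.sqrt (normSq (Ψ x))) ∧ ∀ x, N x = 0 ↔ x ∈ Z
  normalized : ∫ x in Set.Icc (0 : V) 1, normSq (Ψ x) = 1
  dirac_eq : ∀ x ∉ Z, dirac B A Ψ x = 0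
  moment_eq : ∀ x ∉ Z, Ψ x * (Ψ x)ᴴ - ((normSq (Ψ x) / 2 : ℝ) : ℂ) • (1 : Matrix _ _ ℂ) = 0

/-- The kernel map `Φ₀ : M \ Z → Gr_{n-2}(ℂⁿ)`, `m ↦ ker Ψ_m`, extends to a continuous map
`M → Gr_{n-2}(ℂⁿ)`.  The Grassmannian is identified with the space of orthogonal projections of
rank `n - 2`, and `P x` is the orthogonal projection onto `ker (Ψ x)` for `x ∉ Z`. -/
def KernelMapExtends {n : ℕ} (Z : Set V) (Ψ : V → Matrix (Fin 2) (Fin n) ℂ) : Prop :=
  ∃ P : V → Matrix (Fin n) (Fin n) ℂ, (∀ a b, Continuous fun x => P x a b) ∧ Periodic3 P ∧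
    (∀ x, P x * P x = P x ∧ (P x)ᴴ = P x ∧ (P x).trace = (n : ℂ) - 2) ∧
    ∀ x ∉ Z, ∀ v : Fin n → ℂ, P x *ᵥ v = v ↔ Ψ x *ᵥ v = 0

end Pool.Agent.V11196.SW
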