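import Pool.Agent.V11196.SW.Smooth

namespace Pool.Agent.V11196.SW

open scoped ContDiff Matrix
open Matrix MeasureTheory

/-- The integral which has to be normalized. -/
noncomputable def II : ℝ := ∫ x in Set.Icc (0 : V) 1, 2 * ∑ k, cc k * (uu x k * uu x k)

lemma ii_pos : 0 < II := by
  unfold II
  have hc : Continuous fun x : V => 2 * ∑ k, cc k * (uu x k * uu x k) := by
    refine continuous_const.mul (continuous_finsetSum _ fun k _ => ?_)
    exact continuous_const.mul ((uu_smooth k).continuous.mul (uu_smooth k).continuous)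
  have hnn : ∀ x : V, 0 ≤ 2 * ∑ k, cc k * (uu x k * uu x k) := fun x =>
    mul_nonneg zero_le_two (Finset.sum_nonneg fun k _ =>
      mul_nonneg (cc_pos k).le (mul_self_nonneg _))
  have hint : IntegrableOn (fun x : V => 2 * ∑ k, cc k * (uu x k * uu x k)) (Set.Icc (0 : V) 1) :=
    hc.continuousOn.integrableOn_Icc
  rw [setIntegral_pos_iff_support_of_nonneg_ae (Filter.Eventually.of_forall hnn) hint]
  have hopen : IsOpen ({x : V | 0 < 2 * ∑ k, cc k * (uu x k * uu x k)} ∩
      Set.pi Set.univ fun _ : Fin 3 => Set.Ioo (0 : ℝ) 1) :=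
    (isOpen_lt continuous_const hc).inter (isOpen_set_pi Set.finite_univ fun _ _ => isOpen_Ioo)
  refine lt_of_lt_of_le (hopen.measure_pos volume ⟨fun _ => 1 / 2, ?_, ?_⟩) (measure_mono ?_)
  · show 0 < 2 * ∑ k, cc k * (uu (fun _ => 1 / 2) k * uu (fun _ => 1 / 2) k)
    have hne : uu (fun _ => 1 / 2) ≠ 0 := by
      intro h
      have h1 := (mem_ZZ_iff (fun _ => 1 / 2)).1 h 0
      have h2 : ((2 * round (1 / 2 : ℝ) : ℤ) : ℝ) = 1 := by
        push_cast
        rw [← h1]
        norm_num
      have h3 : 2 * round (1 / 2 : ℝ) = 1 := by exact_mod_cast h2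
      omega
    obtain ⟨k, hk⟩ := Function.ne_iff.1 hne
    refine mul_pos two_pos (Finset.sum_pos' (fun k _ => mul_nonneg (cc_pos k).le
      (mul_self_nonneg _)) ⟨k, Finset.mem_univ _, mul_pos (cc_pos k) ?_⟩)
    exact mul_self_pos.2 hk
  · intro i _
    constructor <;> norm_num
  · rintro x ⟨h1, h2⟩
    refine ⟨ne_of_gt h1, ?_⟩
    constructor
    · intro i
      exact (h2 i trivial).1.le
    · intro i
      exact (h2 i trivial).2.le

/-- The scaled model. -/
noncomputable def model (n : ℕ) (hn : 4 ≤ n) : Model n :=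
  theModel n hn (1 / Real.sqrt II) (by have := Real.sqrt_pos.2 ii_pos; positivity)

lemma model_norm (n : ℕ) (hn : 4 ≤ n) :
    ∫ x in Set.Icc (0 : V) 1, normSq (Psi (model n hn) x) = 1 := by
  have h : ∀ x, normSq (Psi (model n hn) x) = II⁻¹ * (2 * ∑ k, cc k * (uu x k * uu x k)) := by
    intro x
    rw [Psi, Model.normSq_R]
    unfold Model.rho
    have hc : ∀ k, (model n hn).c k = II⁻¹ * cc k := by
      intro k
      show (1 / Real.sqrt II) ^ 2 * cc k = _
      rw [div_pow, Real.sq_sqrt ii_pos.le, one_pow, one_div]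
    simp only [hc, Finset.mul_sum]
    refine Finset.sum_congr rfl fun k _ => ?_
    ring
  simp only [h]
  rw [integral_const_mul]
  exact inv_mul_cancel₀ ii_pos.ne'

lemma not_extends (n : ℕ) (hn : 4 ≤ n) : ¬ KernelMapExtends ZZ (Psi (model n hn)) := by
  rintro ⟨P, hc, -, hP, hk⟩
  set m := model n hn with hm
  let e : Fin n → ℂ := Pi.single ⟨0, by omega⟩ 1
  have hl : (1 / Real.sqrt II) ≠ 0 := by
    have := Real.sqrt_pos.2 ii_pos; positivity
  have hW : ∀ k a, (m.W k *ᵥ e) a = ((1 / Real.sqrt II : ℝ) : ℂ) * MM k a 0 := by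
    intro k a
    show ((((1 / Real.sqrt II : ℝ) : ℂ) • (MM k * UU n)) *ᵥ e) a = _
    rw [Matrix.smul_mulVec, Pi.smul_apply, smul_eq_mul]
    congr 1
    simp only [e, Matrix.mulVec_single]
    simp [Matrix.mul_apply, UU, Fin.sum_univ_four]
  have hW2 : m.W 2 *ᵥ e = 0 := by
    ext a
    rw [hW]
    fin_cases a <;> simp [MM]
  have hW0 : m.W 0 *ᵥ e ≠ 0 := by
    intro h
    have h1 := congrFun h 0
    rw [hW] at h1
    simp only [MM, Pi.zero_apply, mul_eq_zero, Complex.ofReal_eq_zero] at h1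
    rcases h1 with h1 | h1
    · exact hl h1
    · simp at h1
  -- points on the axes
  have hpt : ∀ (j : Fin 3) (t : ℝ), 0 < t → t < 1 / 8 →
      (Pi.single j t : V) ∉ ZZ ∧ Psi m (Pi.single j t) = (t : ℂ) • m.W j.castSucc := by
    intro j t h0 h1
    have hr : round t = 0 := by
      apply round_eq_of_lt
      rw [Int.cast_zero, sub_zero, abs_of_pos h0]
      linarith
    have hs : ss t = t := by
      have := ss_near (t := t) (k := 0) (by simpa [abs_of_pos h0] using h1)
      simpa using this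
    have hg : gg t = 0 := gg_near (t := t) (k := 0) (by simpa [abs_of_pos h0] using h1)
    have hs0 : ss 0 = 0 := by
      have := ss_near (t := 0) (k := 0) (by norm_num)
      simpa using this
    have hg0 : gg 0 = 0 := gg_near (t := 0) (k := 0) (by norm_num)
    refine ⟨fun h => ?_, ?_⟩
    · have h2 := (mem_ZZ_iff _).1 h j
      rw [Pi.single_eq_same, hr] at h2
      simp at h2
      linarith
    · unfold Psi Model.R
      rw [Finset.sum_eq_single j.castSucc]
      · congr 2
        fin_cases j <;> simp [uu, hs]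
      · intro k _ hk
        fin_cases j <;> fin_cases k <;> simp_all [uu]
      · simp
  have hcv : ∀ (v : Fin n → ℂ) (j : Fin 3) (a : Fin n),
      Continuous fun t : ℝ => (P (Pi.single j t) *ᵥ v) a := by
    intro v j a
    simp only [Matrix.mulVec, dotProduct]
    refine continuous_finsetSum _ fun b _ => ?_
    have hsing : Continuous fun t : ℝ => (Pi.single j t : V) :=
      continuous_single (A := fun _ : Fin 3 => ℝ) j
    exact ((hc a b).comp hsing).mul continuous_const
  have hclos : (0 : ℝ) ∈ closure (Set.Ioo (0 : ℝ) (1 / 8)) := by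
    rw [closure_Ioo (by norm_num)]
    constructor <;> norm_num
  -- along the third axis
  have h1 : P 0 *ᵥ e = e := by
    ext a
    have hcl : IsClosed {t : ℝ | (P (Pi.single 2 t) *ᵥ e) a = e a} :=
      isClosed_eq (hcv e 2 a) continuous_const
    have hsub : Set.Ioo (0 : ℝ) (1 / 8) ⊆ {t : ℝ | (P (Pi.single 2 t) *ᵥ e) a = e a} := by
      rintro t ⟨ht0, ht1⟩
      obtain ⟨hz, hps⟩ := hpt 2 t ht0 ht1
      have : P (Pi.single 2 t) *ᵥ e = e := by
        rw [hk _ hz, hps, Matrix.smul_mulVec]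
        have : m.W (Fin.castSucc 2) *ᵥ e = 0 := hW2
        rw [this, smul_zero]
      exact congrFun this a
    have := closure_minimal hsub hcl hclos
    simpa using this
  -- along the first axis
  have h2 : m.W 0 *ᵥ (P 0 *ᵥ e) = 0 := by
    ext a
    have hcl : IsClosed {t : ℝ | (m.W 0 *ᵥ (P (Pi.single 0 t) *ᵥ e)) a = 0} := by
      refine isClosed_eq ?_ continuous_const
      have h0 : (fun t : ℝ => (m.W 0 *ᵥ (P (Pi.single 0 t) *ᵥ e)) a)
          = fun t : ℝ => ∑ b, m.W 0 a b * (P (Pi.single 0 t) *ᵥ e) b := rfl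
      rw [h0]
      refine continuous_finsetSum _ fun b _ => ?_
      exact continuous_const.mul (hcv e 0 b)
    have hsub : Set.Ioo (0 : ℝ) (1 / 8) ⊆ {t : ℝ | (m.W 0 *ᵥ (P (Pi.single 0 t) *ᵥ e)) a = 0} := by
      rintro t ⟨ht0, ht1⟩
      obtain ⟨hz, hps⟩ := hpt 0 t ht0 ht1
      have h3 : P (Pi.single 0 t) *ᵥ (P (Pi.single 0 t) *ᵥ e) = P (Pi.single 0 t) *ᵥ e := by
        rw [Matrix.mulVec_mulVec, (hP _).1]
      rw [hk _ hz, hps, Matrix.smul_mulVec] at h3
      have h4 : m.W (Fin.castSucc 0) *ᵥ (P (Pi.single 0 t) *ᵥ e) = 0 := by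
        rcases smul_eq_zero.1 h3 with h5 | h5
        · exact absurd (Complex.ofReal_eq_zero.1 h5) ht0.ne'
        · exact h5
      exact congrFun h4 a
    have := closure_minimal hsub hcl hclos
    simpa using this
  rw [h1] at h2
  exact hW0 h2

end Pool.Agent.V11196.SW
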