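import Pool.Agent.V11196.SW.Model

namespace Pool.Agent.V11196.SW

open scoped ContDiff Matrix
open Matrix MeasureTheory

lemma round_eq_of_lt {y : ℝ} {m : ℤ} (h : |y - m| < 1 / 2) : round y = m := by
  have h1 := abs_sub_round y
  have h2 : |((round y - m : ℤ) : ℝ)| < 1 := by
    have : ((round y - m : ℤ) : ℝ) = (y - m) - (y - round y) := by push_cast; ring
    rw [this]
    calc |(y - m) - (y - round y)| ≤ |y - m| + |y - round y| := abs_sub _ _
      _ < 1 := by linarith
  have h3 : |round y - m| < 1 := by exact_mod_cast h2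
  rw [Int.abs_lt_one_iff] at h3
  omega

lemma periodic_smooth (φ : ℝ → ℝ) (c : ℝ) (hφ : ContDiff ℝ ∞ φ)
    (h0 : ∀ t, 1 / 4 ≤ |t| → φ t = c) : ContDiff ℝ ∞ (fun t => φ (t - round t)) := by
  rw [contDiff_iff_contDiffAt]
  intro t
  by_cases h : |t - round t| < 1 / 2
  · have h1 : (fun t : ℝ => φ (t - round t)) =ᶠ[nhds t] fun y => φ (y - round t) := by
      have : ∀ᶠ y : ℝ in nhds t, |y - round t| < 1 / 2 := by
        have hc : Continuous fun y : ℝ => |y - round t| := by fun_prop
        exact hc.continuousAt.eventually (gt_mem_nhds h)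
      filter_upwards [this] with y hy
      rw [round_eq_of_lt hy]
    refine ContDiffAt.congr_of_eventuallyEq ?_ h1
    exact (hφ.comp (contDiff_id.sub contDiff_const)).contDiffAt
  · have h1 : (fun t : ℝ => φ (t - round t)) =ᶠ[nhds t] fun _ => c := by
      have : ∀ᶠ y : ℝ in nhds t, |y - t| < 1 / 8 := by
        have hc : Continuous fun y : ℝ => |y - t| := by fun_prop
        have := hc.continuousAt (x := t)
        refine this.eventually (gt_mem_nhds ?_)
        simp
      filter_upwards [this] with y hy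
      apply h0
      have h2 : |t - round t| ≤ |t - round y| := round_le t (round y)
      have h3 : |t - round y| ≤ |y - round y| + |y - t| := by
        have : t - round y = (y - round y) - (y - t) := by ring
        rw [this]
        exact abs_sub _ _
      push Not at h
      linarith
    exact ContDiffAt.congr_of_eventuallyEq contDiffAt_const h1

/-- A bump function. -/
noncomputable def chi : ContDiffBump (0 : ℝ) := ⟨1 / 8, 1 / 4, by norm_num, by norm_num⟩

lemma chi_one {t : ℝ} (h : |t| ≤ 1 / 8) : chi t = 1 := by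
  apply chi.one_of_mem_closedBall
  simpa [chi, Real.norm_eq_abs] using h

lemma chi_zero {t : ℝ} (h : 1 / 4 ≤ |t|) : chi t = 0 := by
  apply chi.zero_of_le_dist
  simpa [chi, Real.dist_eq] using h

noncomputable def ss (t : ℝ) : ℝ := (t - round t) * chi (t - round t)
noncomputable def gg (t : ℝ) : ℝ := 1 - chi (t - round t)

lemma ss_smooth : ContDiff ℝ ∞ ss := by
  apply periodic_smooth (fun t => t * chi t) 0
  · exact contDiff_id.mul chi.contDiff
  · intro t ht
    simp [chi_zero ht]

lemma gg_smooth : ContDiff ℝ ∞ gg := by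
  apply periodic_smooth (fun t => 1 - chi t) 1
  · exact contDiff_const.sub chi.contDiff
  · intro t ht
    simp [chi_zero ht]

lemma ss_add (t : ℝ) (k : ℤ) : ss (t + k) = ss t := by
  unfold ss
  rw [round_add_intCast]
  push_cast
  rw [add_sub_add_right_eq_sub]

lemma gg_add (t : ℝ) (k : ℤ) : gg (t + k) = gg t := by
  unfold gg
  rw [round_add_intCast]
  push_cast
  rw [add_sub_add_right_eq_sub]

lemma gg_nonneg (t : ℝ) : 0 ≤ gg t := by
  unfold gg
  have := chi.le_one (x := t - round t)
  linarith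

lemma zero_of_both {t : ℝ} (h1 : ss t = 0) (h2 : gg t = 0) : t = round t := by
  unfold gg at h2
  unfold ss at h1
  have h3 : chi (t - round t) = 1 := by linarith
  rw [h3, mul_one] at h1
  linarith

lemma ss_near {t : ℝ} {k : ℤ} (h : |t - k| < 1 / 8) : ss t = t - k := by
  unfold ss
  rw [round_eq_of_lt (lt_trans h (by norm_num)), chi_one h.le, mul_one]

lemma gg_near {t : ℝ} {k : ℤ} (h : |t - k| < 1 / 8) : gg t = 0 := by
  unfold gg
  rw [round_eq_of_lt (lt_trans h (by norm_num)), chi_one h.le, sub_self]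

/-- The map `ℝ³ → ℝ⁴`. -/
noncomputable def uu (x : V) : Fin 4 → ℝ :=
  ![ss (x 0), ss (x 1), ss (x 2), gg (x 0) + gg (x 1) + gg (x 2)]

lemma uu_smooth (k : Fin 4) : ContDiff ℝ ∞ (fun x => uu x k) := by
  have h0 : ContDiff ℝ ∞ (fun x : V => x 0) := contDiff_apply ℝ ℝ (0 : Fin 3)
  have h1 : ContDiff ℝ ∞ (fun x : V => x 1) := contDiff_apply ℝ ℝ (1 : Fin 3)
  have h2 : ContDiff ℝ ∞ (fun x : V => x 2) := contDiff_apply ℝ ℝ (2 : Fin 3)
  fin_cases k
  · exact ss_smooth.comp h0
  · exact ss_smooth.comp h1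
  · exact ss_smooth.comp h2
  · exact ((gg_smooth.comp h0).add (gg_smooth.comp h1)).add (gg_smooth.comp h2)

lemma uu_periodic : Periodic3 uu := by
  intro k x
  simp [uu, ss_add, gg_add]

/-- The lattice. -/
def ZZ : Set V := {x | uu x = 0}

lemma mem_ZZ_iff (x : V) : x ∈ ZZ ↔ ∀ j, x j = round (x j) := by
  constructor
  · intro h
    have h0 : uu x = 0 := h
    have e0 : ss (x 0) = 0 := congrFun h0 0
    have e1 : ss (x 1) = 0 := congrFun h0 1
    have e2 : ss (x 2) = 0 := congrFun h0 2
    have e3 : gg (x 0) + gg (x 1) + gg (x 2) = 0 := congrFun h0 3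
    have g0 := gg_nonneg (x 0)
    have g1 := gg_nonneg (x 1)
    have g2 := gg_nonneg (x 2)
    have a0 : gg (x 0) = 0 := by linarith
    have a1 : gg (x 1) = 0 := by linarith
    have a2 : gg (x 2) = 0 := by linarith
    intro j
    fin_cases j
    · exact zero_of_both e0 a0
    · exact zero_of_both e1 a1
    · exact zero_of_both e2 a2
  · intro h
    have hh : ∀ j, |x j - round (x j)| < 1 / 8 := fun j => by
      rw [← h j]; norm_num
    have es : ∀ j, ss (x j) = 0 := fun j => by
      rw [ss_near (hh j), ← h j, sub_self]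
    have eg : ∀ j, gg (x j) = 0 := fun j => gg_near (hh j)
    show uu x = 0
    ext k
    fin_cases k <;> simp [uu, es, eg]

lemma uu_near {z : V} (hz : z ∈ ZZ) : ∀ᶠ x in nhds z,
    uu x = ![x 0 - z 0, x 1 - z 1, x 2 - z 2, 0] := by
  rw [mem_ZZ_iff] at hz
  have h : ∀ j, ∀ᶠ x : V in nhds z, |x j - z j| < 1 / 8 := by
    intro j
    have hc : Continuous fun x : V => |x j - z j| := by fun_prop
    refine (hc.continuousAt (x := z)).eventually (gt_mem_nhds ?_)
    simp
  filter_upwards [h 0, h 1, h 2] with x h0 h1 h2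
  rw [hz 0] at h0 ⊢
  rw [hz 1] at h1 ⊢
  rw [hz 2] at h2 ⊢
  simp only [uu, ss_near h0, ss_near h1, ss_near h2, gg_near h0, gg_near h1, gg_near h2, add_zero]

lemma isClosed_ZZ : IsClosed ZZ := by
  have : Continuous uu := by
    rw [continuous_pi_iff]
    exact fun k => (uu_smooth k).continuous
  exact isClosed_singleton.preimage this

lemma interior_ZZ : interior ZZ = ∅ := by
  by_contra hne
  obtain ⟨x, hx⟩ := Set.nonempty_iff_ne_empty.2 hne
  have h1 : ∀ᶠ y in nhds x, y ∈ ZZ := mem_interior_iff_mem_nhds.1 hx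
  have hc : Continuous fun t : ℝ => x + fun _ : Fin 3 => t := by fun_prop
  have h2 : ∀ᶠ t : ℝ in nhds 0, (x + fun _ : Fin 3 => t) ∈ ZZ := by
    have := (hc.continuousAt (x := 0)).eventually (p := fun y => y ∈ ZZ)
    apply this
    convert h1 using 2
    ext j
    simp
  obtain ⟨ε, hε, h3⟩ := Metric.eventually_nhds_iff.1 h2
  have h4 := h3 (y := min (ε / 2) (1 / 2)) (by
    rw [Real.dist_eq, sub_zero, abs_of_pos (by positivity)]
    exact lt_of_le_of_lt (min_le_left _ _) (by linarith))
  have h5 := (mem_ZZ_iff x).1 h1.self_of_nhds 0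
  have h6 := (mem_ZZ_iff _).1 h4 0
  simp only [Pi.add_apply] at h6
  set δ := min (ε / 2) (1 / 2 : ℝ) with hδ
  have hδ0 : 0 < δ := by positivity
  have hδ1 : δ ≤ 1 / 2 := min_le_right _ _
  have h7 : δ = ((round (x 0 + δ) - round (x 0) : ℤ) : ℝ) := by
    push_cast
    linarith
  have h8 : (0 : ℝ) < ((round (x 0 + δ) - round (x 0) : ℤ) : ℝ) := h7 ▸ hδ0
  have h9 : ((round (x 0 + δ) - round (x 0) : ℤ) : ℝ) < 1 := by
    rw [← h7]; linarith
  have h10 : 0 < round (x 0 + δ) - round (x 0) := by exact_mod_cast h8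
  have h11 : round (x 0 + δ) - round (x 0) < 1 := by exact_mod_cast h9
  omega

end Pool.Agent.V11196.SW
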