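import Pool.Agent.V11196.SW.Algebra

namespace Pool.Agent.V11196.SW

open scoped ContDiff Matrix
open Matrix MeasureTheory

/-- The four model matrices. -/
def MM (k : Fin 4) : Matrix (Fin 2) (Fin 4) ℂ :=
  ![!![3, 0, 1 + Complex.I, -1; 0, 3, 1, 1 - Complex.I],
    !![3 * Complex.I, 0, 1 - Complex.I, Complex.I; 0, -3 * Complex.I, Complex.I, 1 + Complex.I],
    !![0, 0, -2, -2 + 2 * Complex.I; 0, 0, 2 + 2 * Complex.I, -2],
    !![0, Complex.I, 0, 0; Complex.I, 0, 0, 0]] k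

def cc (k : Fin 4) : ℝ := ![12, 12, 12, 1] k

lemma cc_pos (k : Fin 4) : 0 < cc k := by fin_cases k <;> simp [cc]

set_option maxHeartbeats 4000000 in
lemma MM_rel (k l : Fin 4) : MM k * (MM l)ᴴ + MM l * (MM k)ᴴ
    = ((if k = l then 2 * cc k else 0 : ℝ) : ℂ) • 1 := by
  fin_cases k <;> fin_cases l <;> ext a b <;> fin_cases a <;> fin_cases b <;>
    apply Complex.ext <;>
    simp [MM, cc, Matrix.mul_apply, Fin.sum_univ_four, Matrix.vecMul, dotProduct] <;> norm_num

lemma sum_pauli_MM : pauli 0 * MM 0 + pauli 1 * MM 1 + pauli 2 * MM 2 = 0 := by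
  ext a b
  fin_cases a <;> fin_cases b <;>
    apply Complex.ext <;>
    simp [MM, pauli, Matrix.mul_apply, Fin.sum_univ_two] <;> norm_num

section W

variable {n : ℕ}

structure Model (n : ℕ) where
  W : Fin 4 → Matrix (Fin 2) (Fin n) ℂ
  c : Fin 4 → ℝ
  c_pos : ∀ k, 0 < c k
  rel : ∀ k l, W k * (W l)ᴴ + W l * (W k)ᴴ = ((if k = l then 2 * c k else 0 : ℝ) : ℂ) • 1
  harm : pauli 0 * W 0 + pauli 1 * W 1 + pauli 2 * W 2 = 0

/-- The linear map `ℝ⁴ → Mat_{2 × n}(ℂ)`. -/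
def Model.R (m : Model n) (u : Fin 4 → ℝ) : Matrix (Fin 2) (Fin n) ℂ := ∑ k, (u k : ℂ) • m.W k

lemma Model.R_rel (m : Model n) (u w : Fin 4 → ℝ) :
    m.R u * (m.R w)ᴴ + m.R w * (m.R u)ᴴ = ((∑ k, 2 * m.c k * u k * w k : ℝ) : ℂ) • 1 := by
  have h1 : ∀ u w : Fin 4 → ℝ, m.R u * (m.R w)ᴴ
      = ∑ k, ∑ l, ((u k * w l : ℝ) : ℂ) • (m.W k * (m.W l)ᴴ) := by
    intro u w
    unfold Model.R
    rw [Matrix.sum_mul]
    refine Finset.sum_congr rfl fun k _ => ?_
    rw [Matrix.conjTranspose_sum, Matrix.mul_sum]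
    refine Finset.sum_congr rfl fun l _ => ?_
    rw [Matrix.conjTranspose_smul, Matrix.smul_mul, Matrix.mul_smul, smul_smul]
    simp
  rw [h1 u w, h1 w u, Finset.sum_comm (f := fun k l => ((w k * u l : ℝ) : ℂ) • (m.W k * (m.W l)ᴴ)),
    ← Finset.sum_add_distrib]
  have h2 : ∀ k : Fin 4, ∑ l, ((u k * w l : ℝ) : ℂ) • (m.W k * (m.W l)ᴴ) +
      ∑ l, ((w l * u k : ℝ) : ℂ) • (m.W l * (m.W k)ᴴ)
      = ((2 * m.c k * u k * w k : ℝ) : ℂ) • 1 := by
    intro k
    rw [← Finset.sum_add_distrib]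
    have h3 : ∀ l : Fin 4, ((u k * w l : ℝ) : ℂ) • (m.W k * (m.W l)ᴴ) +
        ((w l * u k : ℝ) : ℂ) • (m.W l * (m.W k)ᴴ)
        = if k = l then ((2 * m.c k * u k * w k : ℝ) : ℂ) • 1 else 0 := by
      intro l
      rw [mul_comm (w l), ← smul_add, m.rel, smul_smul, ← Complex.ofReal_mul]
      split_ifs with h
      · subst h
        congr 2
        ring
      · simp
    rw [Finset.sum_congr rfl fun l _ => h3 l, Finset.sum_ite_eq]
    simp
  rw [Finset.sum_congr rfl fun k _ => h2 k, ← Finset.sum_smul, Complex.ofReal_sum]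

/-- half the squared norm -/
def Model.rho (m : Model n) (u : Fin 4 → ℝ) : ℝ := ∑ k, m.c k * (u k * u k)

lemma Model.R_self (m : Model n) (u : Fin 4 → ℝ) :
    m.R u * (m.R u)ᴴ = (m.rho u : ℂ) • 1 := by
  have h := m.R_rel u u
  rw [← two_smul ℂ] at h
  have h2 : (m.rho u : ℂ) = (1 / 2 : ℂ) * ((∑ k, 2 * m.c k * u k * u k : ℝ) : ℂ) := by
    unfold Model.rho
    push_cast
    rw [Finset.mul_sum]
    refine Finset.sum_congr rfl fun k _ => ?_
    ring
  rw [h2, ← smul_smul, ← h, smul_smul]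
  norm_num

lemma Model.trace_R (m : Model n) (j : Fin 3) (u w : Fin 4 → ℝ) :
    (pauli j * m.R u * (m.R w)ᴴ).trace.re = 0 := by
  have h1 : star (pauli j * m.R u * (m.R w)ᴴ).trace = (pauli j * (m.R w * (m.R u)ᴴ)).trace := by
    rw [← Matrix.trace_conjTranspose, Matrix.conjTranspose_mul, Matrix.conjTranspose_mul,
      Matrix.conjTranspose_conjTranspose, pauli_conj, ← Matrix.mul_assoc, Matrix.trace_mul_comm]
  have h2 : (pauli j * m.R u * (m.R w)ᴴ).trace + star (pauli j * m.R u * (m.R w)ᴴ).trace = 0 := by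
    rw [h1, Matrix.mul_assoc, ← Matrix.trace_add, ← Matrix.mul_add, m.R_rel, Matrix.mul_smul,
      Matrix.mul_one, Matrix.trace_smul, pauli_trace, smul_zero]
  have h3 := congrArg Complex.re h2
  simp only [Complex.add_re, Complex.star_def, Complex.conj_re, Complex.zero_re] at h3
  linarith

lemma Model.rho_eq_zero (m : Model n) (u : Fin 4 → ℝ) : m.rho u = 0 ↔ u = 0 := by
  unfold Model.rho
  rw [Finset.sum_eq_zero_iff_of_nonneg fun k _ => mul_nonneg (m.c_pos k).le (mul_self_nonneg _)]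
  constructor
  · intro h
    ext k
    have := h k (Finset.mem_univ _)
    rcases mul_eq_zero.1 this with h1 | h1
    · exact absurd h1 (m.c_pos k).ne'
    · simpa using mul_self_eq_zero.1 h1
  · rintro rfl
    simp

lemma Model.rho_nonneg (m : Model n) (u : Fin 4 → ℝ) : 0 ≤ m.rho u :=
  Finset.sum_nonneg fun k _ => mul_nonneg (m.c_pos k).le (mul_self_nonneg _)

lemma normSq_eq (R : Matrix (Fin 2) (Fin n) ℂ) : normSq R = (R * Rᴴ).trace.re := by
  unfold normSq
  simp only [Matrix.trace, Matrix.diag, Matrix.mul_apply, Matrix.conjTranspose_apply,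
    Complex.re_sum]
  refine Finset.sum_congr rfl fun a _ => Finset.sum_congr rfl fun b _ => ?_
  rw [Complex.star_def, Complex.mul_conj]
  simp

lemma Model.normSq_R (m : Model n) (u : Fin 4 → ℝ) : normSq (m.R u) = 2 * m.rho u := by
  rw [normSq_eq, m.R_self]
  simp [Matrix.trace_smul, mul_comm]

end W

/-- The coisometry `ℂⁿ → ℂ⁴` onto the first four coordinates. -/
def UU (n : ℕ) : Matrix (Fin 4) (Fin n) ℂ := Matrix.of fun a b => if b.val = a.val then 1 else 0

lemma UU_mul (n : ℕ) (hn : 4 ≤ n) : UU n * (UU n)ᴴ = 1 := by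
  ext a b
  rw [Matrix.mul_apply]
  have h : ∀ c : Fin n, UU n a c * (UU n)ᴴ c b
      = if c = ⟨a.val, lt_of_lt_of_le a.2 hn⟩ then (if a = b then 1 else 0) else 0 := by
    intro c
    simp only [UU, Matrix.conjTranspose_apply, Matrix.of_apply, Fin.ext_iff]
    split_ifs <;> simp_all
  rw [Finset.sum_congr rfl fun c _ => h c, Finset.sum_ite_eq']
  simp [Matrix.one_apply]

/-- The model scaled by `l`. -/
noncomputable def theModel (n : ℕ) (hn : 4 ≤ n) (l : ℝ) (hl : 0 < l) : Model n where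
  W k := (l : ℂ) • (MM k * UU n)
  c k := l ^ 2 * cc k
  c_pos k := mul_pos (pow_pos hl 2) (cc_pos k)
  rel k j := by
    have h : ∀ k j, ((l : ℂ) • (MM k * UU n)) * ((l : ℂ) • (MM j * UU n))ᴴ
        = ((l ^ 2 : ℝ) : ℂ) • (MM k * (MM j)ᴴ) := by
      intro k j
      rw [Matrix.conjTranspose_smul, Matrix.smul_mul, Matrix.mul_smul, smul_smul,
        Matrix.conjTranspose_mul, Matrix.mul_assoc (MM k), ← Matrix.mul_assoc (UU n), UU_mul n hn,
        Matrix.one_mul]
      congr 1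
      simp [sq]
    rw [h, h, ← smul_add, MM_rel, smul_smul, ← Complex.ofReal_mul]
    congr 2
    split_ifs <;> ring
  harm := by
    rw [Matrix.mul_smul, Matrix.mul_smul, Matrix.mul_smul, ← Matrix.mul_assoc, ← Matrix.mul_assoc,
      ← Matrix.mul_assoc, ← smul_add, ← smul_add, ← Matrix.add_mul, ← Matrix.add_mul, sum_pauli_MM,
      Matrix.zero_mul, smul_zero]

end Pool.Agent.V11196.SW
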