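import Pool.Agent.V11196.SW.Functions

namespace Pool.Agent.V11196.SW

open scoped ContDiff Matrix
open Matrix MeasureTheory

/-- Entrywise smoothness at a point. -/
def MS {m n : ℕ} (f : V → Matrix (Fin m) (Fin n) ℂ) (x : V) : Prop :=
  ∀ a b, ContDiffAt ℝ ∞ (fun y => f y a b) x

section

variable {m n k : ℕ} {x : V}

lemma MS.const (c : Matrix (Fin m) (Fin n) ℂ) : MS (fun _ => c) x := fun _ _ => contDiffAt_const

lemma MS.add {f g : V → Matrix (Fin m) (Fin n) ℂ} (hf : MS f x) (hg : MS g x) :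
    MS (fun y => f y + g y) x := fun a b => (hf a b).add (hg a b)

lemma MS.sub {f g : V → Matrix (Fin m) (Fin n) ℂ} (hf : MS f x) (hg : MS g x) :
    MS (fun y => f y - g y) x := fun a b => (hf a b).sub (hg a b)

lemma MS.smul {r : V → ℂ} {f : V → Matrix (Fin m) (Fin n) ℂ} (hr : ContDiffAt ℝ ∞ r x)
    (hf : MS f x) : MS (fun y => r y • f y) x := fun a b => hr.mul (hf a b)

lemma MS.mul {f : V → Matrix (Fin m) (Fin n) ℂ} {g : V → Matrix (Fin n) (Fin k) ℂ}
    (hf : MS f x) (hg : MS g x) : MS (fun y => f y * g y) x := by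
  intro a b
  simp only [Matrix.mul_apply]
  exact ContDiffAt.sum fun c _ => (hf a c).mul (hg c b)

lemma MS.conjTranspose {f : V → Matrix (Fin m) (Fin n) ℂ} (hf : MS f x) :
    MS (fun y => (f y)ᴴ) x := by
  intro a b
  simp only [Matrix.conjTranspose_apply]
  exact (Complex.conjCLE.contDiff.contDiffAt).comp x (hf b a)

lemma MS.trace {f : V → Matrix (Fin m) (Fin m) ℂ} (hf : MS f x) :
    ContDiffAt ℝ ∞ (fun y => (f y).trace) x := by
  simp only [Matrix.trace, Matrix.diag]
  exact ContDiffAt.sum fun c _ => hf c c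

lemma MS.sum {ι : Type*} {s : Finset ι} {f : ι → V → Matrix (Fin m) (Fin n) ℂ}
    (hf : ∀ i ∈ s, MS (f i) x) : MS (fun y => ∑ i ∈ s, f i y) x := by
  intro a b
  simp only [Matrix.sum_apply]
  exact ContDiffAt.sum fun i hi => hf i hi a b

lemma cd_re {r : V → ℂ} (hr : ContDiffAt ℝ ∞ r x) : ContDiffAt ℝ ∞ (fun y => (r y).re) x :=
  (Complex.reCLM.contDiff.contDiffAt).comp x hr

lemma cd_im {r : V → ℂ} (hr : ContDiffAt ℝ ∞ r x) : ContDiffAt ℝ ∞ (fun y => (r y).im) x :=
  (Complex.imCLM.contDiff.contDiffAt).comp x hr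

lemma cd_ofReal {r : V → ℝ} (hr : ContDiffAt ℝ ∞ r x) : ContDiffAt ℝ ∞ (fun y => (r y : ℂ)) x :=
  (Complex.ofRealCLM.contDiff.contDiffAt).comp x hr

lemma cd_n0 {N : V → Matrix (Fin 2) (Fin 2) ℂ} (hN : MS N x) :
    ContDiffAt ℝ ∞ (fun y => n0 (N y)) x := (cd_im hN.trace).div_const 2

lemma cd_pp {N : V → Matrix (Fin 2) (Fin 2) ℂ} (hN : MS N x) (l : Fin 3) :
    ContDiffAt ℝ ∞ (fun y => pp (N y) l) x :=
  (cd_re ((MS.const (pauli l)).mul hN).trace).div_const 2

lemma cd_qq {N : V → Matrix (Fin 2) (Fin 2) ℂ} (hN : MS N x) (l : Fin 3) :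
    ContDiffAt ℝ ∞ (fun y => qq (N y) l) x :=
  (cd_im ((MS.const (pauli l)).mul hN).trace).div_const 2

lemma ms_coef {r : V → ℝ} (hr : ContDiffAt ℝ ∞ r x) (c : ℝ) (M : Matrix (Fin m) (Fin n) ℂ) :
    MS (fun y => (Complex.I * ((r y / c : ℝ) : ℂ)) • M) x :=
  MS.smul (contDiffAt_const.mul (cd_ofReal (hr.div_const c))) (MS.const M)

lemma ms_alpha {N : V → Matrix (Fin 2) (Fin 2) ℂ} (hN : MS N x) (j : Fin 3) :
    MS (fun y => alpha (n0 (N y)) (pp (N y)) j) x := by
  fin_cases j
  · exact ((ms_coef (cd_n0 hN) 3 _).add (ms_coef (cd_pp hN 1) 2 _)).sub (ms_coef (cd_pp hN 2) 2 _)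
  · exact ((ms_coef (cd_n0 hN) 3 _).add (ms_coef (cd_pp hN 2) 2 _)).sub (ms_coef (cd_pp hN 0) 2 _)
  · exact ((ms_coef (cd_n0 hN) 3 _).add (ms_coef (cd_pp hN 0) 2 _)).sub (ms_coef (cd_pp hN 1) 2 _)

lemma cd_aa {ρ : V → ℝ} (hρ : ContDiffAt ℝ ∞ ρ x) (h0 : ρ x ≠ 0)
    {N : V → Matrix (Fin 2) (Fin 2) ℂ} (hN : MS N x) (j : Fin 3) :
    ContDiffAt ℝ ∞ (fun y => aa (ρ y) (N y) j) x :=
  (cd_qq hN j).neg.mul (hρ.inv h0)

lemma ms_bb {ρ : V → ℝ} (hρ : ContDiffAt ℝ ∞ ρ x) (h0 : ρ x ≠ 0)
    {R T : V → Matrix (Fin 2) (Fin n) ℂ} (hR : MS R x) (hT : MS T x) (j : Fin 3) :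
    MS (fun y => bb (ρ y) (R y) (T y) j) x := by
  have hi : ContDiffAt ℝ ∞ (fun y => (ρ y)⁻¹) x := hρ.inv h0
  have hN : MS (fun y => T y * (R y)ᴴ) x := hT.mul hR.conjTranspose
  have hTp : MS (fun y => Tp (ρ y) (R y) (T y)) x :=
    hT.sub (MS.smul (cd_ofReal hi) (hN.mul hR))
  exact (MS.smul (cd_ofReal (hi.div_const 3))
      (((hR.conjTranspose.mul (MS.const (pauli j))).mul hTp).sub
        ((hTp.conjTranspose.mul (MS.const (pauli j))).mul hR))).add
    (MS.smul (cd_ofReal (hi.mul hi)) ((hR.conjTranspose.mul (ms_alpha hN j)).mul hR))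

end

section main

variable {n : ℕ} (m : Model n)

/-- The spinor. -/
noncomputable def Psi (x : V) : Matrix (Fin 2) (Fin n) ℂ := m.R (uu x)

lemma psi_smooth (a : Fin 2) (b : Fin n) : ContDiff ℝ ∞ (fun x => Psi m x a b) := by
  unfold Psi Model.R
  simp only [Matrix.sum_apply, Matrix.smul_apply, smul_eq_mul]
  refine ContDiff.sum fun k _ => ?_
  exact (Complex.ofRealCLM.contDiff.comp (uu_smooth k)).mul contDiff_const

lemma psi_ms (x : V) : MS (Psi m) x := fun a b => (psi_smooth m a b).contDiffAt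

lemma pd_psi (j : Fin 3) (x : V) :
    pd j (Psi m) x = m.R (fun k => fderiv ℝ (fun y => uu y k) x (Pi.single j 1)) := by
  ext a b
  simp only [pd, Matrix.of_apply]
  let L : (Fin 4 → ℝ) →L[ℝ] ℂ := LinearMap.toContinuousLinearMap
    { toFun := fun u => m.R u a b
      map_add' := by
        intro u w
        simp [Model.R, Matrix.sum_apply, add_mul, Finset.sum_add_distrib]
      map_smul' := by
        intro r u
        simp [Model.R, Matrix.sum_apply, Finset.mul_sum, mul_assoc] }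
  have hL : ∀ u, L u = m.R u a b := fun u => rfl
  have h1 : HasFDerivAt uu (ContinuousLinearMap.pi fun k => fderiv ℝ (fun y => uu y k) x) x := by
    rw [hasFDerivAt_pi]
    intro k
    exact ((uu_smooth k).differentiable (by simp)).differentiableAt.hasFDerivAt
  have h2 : HasFDerivAt (fun y => Psi m y a b)
      (L.comp (ContinuousLinearMap.pi fun k => fderiv ℝ (fun y => uu y k) x)) x :=
    L.hasFDerivAt.comp x h1
  rw [h2.fderiv, ContinuousLinearMap.comp_apply, hL]
  rfl

/-- The Dirac operator without connections. -/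
noncomputable def TT (x : V) : Matrix (Fin 2) (Fin n) ℂ := ∑ j, pauli j * pd j (Psi m) x

lemma pd_ms (j : Fin 3) (x : V) : MS (pd j (Psi m)) x := by
  intro a b
  simp only [pd, Matrix.of_apply]
  have h := (psi_smooth m a b).fderiv_right (m := ∞) (by simp)
  exact (h.clm_apply contDiff_const).contDiffAt

lemma tt_ms (x : V) : MS (TT m) x :=
  MS.sum fun j _ => (MS.const (pauli j)).mul (pd_ms m j x)

lemma rho_smooth : ContDiff ℝ ∞ (fun x => m.rho (uu x)) := by
  unfold Model.rho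
  exact ContDiff.sum fun k _ => contDiff_const.mul ((uu_smooth k).mul (uu_smooth k))

lemma tt_near {z : V} (hz : z ∈ ZZ) : ∀ᶠ x in nhds z, TT m x = 0 := by
  have h := (uu_near hz).eventually_nhds
  filter_upwards [h] with x hx
  have hf : ∀ (k : Fin 4) (j : Fin 3), fderiv ℝ (fun y => uu y k) x (Pi.single j 1)
      = if k.val = j.val then 1 else 0 := by
    intro k j
    have h1 : (fun y => uu y k) =ᶠ[nhds x]
        fun y => (![y 0 - z 0, y 1 - z 1, y 2 - z 2, 0] : Fin 4 → ℝ) k := by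
      filter_upwards [hx] with y hy
      rw [hy]
    rw [h1.fderiv_eq]
    have h2 : ∀ i : Fin 3, fderiv ℝ (fun y : V => y i - z i) x
        = (ContinuousLinearMap.proj i : V →L[ℝ] ℝ) := by
      intro i
      exact ((ContinuousLinearMap.proj i : V →L[ℝ] ℝ).hasFDerivAt.sub_const (z i)).fderiv
    fin_cases k
    · show fderiv ℝ (fun y : V => y 0 - z 0) x (Pi.single j 1) = _
      rw [h2]; fin_cases j <;> simp
    · show fderiv ℝ (fun y : V => y 1 - z 1) x (Pi.single j 1) = _
      rw [h2]; fin_cases j <;> simp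
    · show fderiv ℝ (fun y : V => y 2 - z 2) x (Pi.single j 1) = _
      rw [h2]; fin_cases j <;> simp
    · show fderiv ℝ (fun y : V => (0 : ℝ)) x (Pi.single j 1) = _
      fin_cases j <;> simp
  unfold TT
  simp only [pd_psi, hf, Fin.sum_univ_three]
  have e : ∀ j : Fin 3, m.R (fun k => if k.val = j.val then 1 else 0) = m.W (j.castSucc) := by
    intro j
    unfold Model.R
    rw [Finset.sum_eq_single j.castSucc]
    · simp
    · intro b _ hb
      have : b.val ≠ j.val := fun h => hb (Fin.ext (by simpa using h))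
      simp [this]
    · simp
  rw [e, e, e]
  exact m.harm

noncomputable def AA (j : Fin 3) (x : V) : ℝ := aa (m.rho (uu x)) (TT m x * (Psi m x)ᴴ) j

noncomputable def BB (j : Fin 3) (x : V) : Matrix (Fin n) (Fin n) ℂ :=
  bb (m.rho (uu x)) (Psi m x) (TT m x) j

lemma rho_ne {x : V} (hx : x ∉ ZZ) : m.rho (uu x) ≠ 0 := fun h => hx ((m.rho_eq_zero _).1 h)

lemma bb_zero (ρ : ℝ) (R : Matrix (Fin 2) (Fin n) ℂ) (j : Fin 3) : bb ρ R 0 j = 0 := by
  have h1 : alpha 0 (fun _ => (0 : ℝ)) j = 0 := by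
    fin_cases j <;> simp [alpha]
  have h2 : pp (0 : Matrix (Fin 2) (Fin 2) ℂ) = fun _ => 0 := by
    ext l; simp [pp]
  simp [bb, Tp, n0, h2, h1]

lemma bb_smooth (j : Fin 3) (a b : Fin n) : ContDiff ℝ ∞ (fun x => BB m j x a b) := by
  rw [contDiff_iff_contDiffAt]
  intro x
  by_cases hx : x ∈ ZZ
  · have h : (fun x => BB m j x a b) =ᶠ[nhds x] fun _ => 0 := by
      filter_upwards [tt_near m hx] with y hy
      rw [BB, hy, bb_zero]
      rfl
    exact ContDiffAt.congr_of_eventuallyEq contDiffAt_const h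
  · exact ms_bb (rho_smooth m).contDiffAt (rho_ne m hx) (psi_ms m x) (tt_ms m x) j a b

lemma bb_traceless (j : Fin 3) (x : V) : (BB m j x).trace = 0 := by
  by_cases hx : x ∈ ZZ
  · rw [BB, (tt_near m hx).self_of_nhds, bb_zero, Matrix.trace_zero]
  · exact bb_trace (rho_ne m hx) (m.R_self _) j

lemma psi_periodic : Periodic3 (Psi m) := by
  intro k x
  rw [Psi, uu_periodic]
  rfl

lemma pd_periodic (j : Fin 3) : Periodic3 (pd j (Psi m)) := by
  intro k x
  ext a b
  simp only [pd, Matrix.of_apply]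
  have h : (fun y => Psi m (y + fun i => (k i : ℝ)) a b) = fun y => Psi m y a b := by
    ext y
    rw [psi_periodic m k y]
  have h2 := fderiv_comp_add_right (𝕜 := ℝ) (f := fun y => Psi m y a b) (x := x)
    (fun i => (k i : ℝ))
  rw [← h2, h]

lemma tt_periodic : Periodic3 (TT m) := by
  intro k x
  unfold TT
  simp only [pd_periodic m _ k x]

lemma aa_periodic (j : Fin 3) : Periodic3 (AA m j) := by
  intro k x
  rw [AA, uu_periodic, tt_periodic, psi_periodic]
  rfl

lemma bb_periodic (j : Fin 3) : Periodic3 (BB m j) := by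
  intro k x
  rw [BB, uu_periodic, tt_periodic, psi_periodic]
  rfl

lemma isSU : IsSUConnection (BB m) where
  smooth := bb_smooth m
  periodic := bb_periodic m
  skew j x := bb_skew _ _ _ j
  traceless := bb_traceless m

lemma dirac_zero {x : V} (hx : x ∉ ZZ) : dirac (BB m) (AA m) (Psi m) x = 0 := by
  have hT : (TT m x * (Psi m x)ᴴ).trace.re = 0 := by
    unfold TT
    rw [Matrix.sum_mul, Matrix.trace_sum, Complex.re_sum]
    refine Finset.sum_eq_zero fun j _ => ?_
    rw [pd_psi]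
    exact m.trace_R _ _ _
  have h := solved (rho_ne m hx) (m.R_self (uu x)) (T := TT m x) hT
  unfold dirac clifford
  have h2 : ∀ j, (Complex.I • pauli j) * (pd j (Psi m) x + (Complex.I * (AA m j x : ℂ)) • Psi m x -
      Psi m x * BB m j x) = Complex.I • (pauli j * pd j (Psi m) x) +
      Complex.I • (pauli j * ((Complex.I * (AA m j x : ℂ)) • Psi m x - Psi m x * BB m j x)) := by
    intro j
    rw [Matrix.smul_mul, ← smul_add, ← Matrix.mul_add]
    congr 2
    abel
  rw [Finset.sum_congr rfl fun j _ => h2 j, Finset.sum_add_distrib, ← Finset.smul_sum,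
    ← Finset.smul_sum]
  have h3 : ∑ j, pauli j * ((Complex.I * (AA m j x : ℂ)) • Psi m x - Psi m x * BB m j x)
      = - TT m x := h
  rw [h3]
  simp [TT]

lemma isSolution (hI : ∫ x in Set.Icc (0 : V) 1, normSq (Psi m x) = 1) :
    IsSolution (BB m) ZZ (AA m) (Psi m) where
  closed := isClosed_ZZ
  nowhereDense := interior_ZZ
  periodic_Z k x := by
    show (uu _ = 0) = (uu x = 0)
    rw [uu_periodic]
  smooth_A j x hx := (cd_aa (rho_smooth m).contDiffAt (rho_ne m hx)
    ((tt_ms m x).mul (psi_ms m x).conjTranspose) j).contDiffWithinAt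
  periodic_A := aa_periodic m
  smooth_Ψ a b := (psi_smooth m a b).contDiffOn
  periodic_Ψ := psi_periodic m
  norm_extends := by
    refine ⟨fun x => Real.sqrt (normSq (Psi m x)), ?_, ?_, fun x _ => rfl, fun x => ?_⟩
    · have : Continuous fun x => normSq (Psi m x) := by
        simp only [Psi, m.normSq_R]
        exact continuous_const.mul (rho_smooth m).continuous
      exact this.sqrt
    · intro k x
      simp only [psi_periodic m k x]
    · simp only [Psi, m.normSq_R]
      rw [Real.sqrt_eq_zero (mul_nonneg zero_le_two (m.rho_nonneg _))]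
      constructor
      · intro h
        exact (m.rho_eq_zero _).1 (by linarith)
      · intro h
        rw [(m.rho_eq_zero _).2 h, mul_zero]
  normalized := hI
  dirac_eq x hx := dirac_zero m hx
  moment_eq x _ := by
    have h1 : normSq (Psi m x) / 2 = m.rho (uu x) := by
      rw [Psi, m.normSq_R]; ring
    rw [h1]
    exact sub_eq_zero.2 (m.R_self (uu x))

end main

end Pool.Agent.V11196.SW
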